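import Mathlib
import Pool.Agent.XR.MAIN

/-! # Star-shaped polygons which cannot be verified by any `m` X-rays -/

set_option autoImplicit false

noncomputable section

namespace Pool.Agent.Results.MP_7519fe_gt.NotVerifiable

open MeasureTheory

open scoped ENNReal

/-- The Euclidean plane. -/
abbrev Plane := EuclideanSpace ℝ (Fin 2)

/-- The frontier of `P` is a simple closed polygonal curve with the vertices `v 0, ..., v (n-1)`,
`n ≥ 3`: the vertices are distinct and two different edges meet at most in a common endpoint. -/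
def BoundedByPolygon (P : Set Plane) : Prop :=
  ∃ n : ℕ, ∃ v : ℕ → Plane, 3 ≤ n ∧ (∀ i, v (i + n) = v i) ∧
    (∀ i < n, ∀ j < n, i ≠ j → v i ≠ v j) ∧
    (∀ i < n, ∀ j < n, i ≠ j →
      segment ℝ (v i) (v (i + 1)) ∩ segment ℝ (v j) (v (j + 1)) ⊆
        ({v i, v (i + 1)} : Set Plane) ∩ {v j, v (j + 1)}) ∧
    frontier P = ⋃ i ∈ Finset.range n, segment ℝ (v i) (v (i + 1))

/-- A star-shaped polygon: compact, with nonempty interior, bounded by a simple closed polygonal
curve, and star-shaped with respect to one of its points. -/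
def StarPolygon (P : Set Plane) : Prop :=
  BoundedByPolygon P ∧ IsCompact P ∧ (interior P).Nonempty ∧ ∃ p ∈ P, StarConvex ℝ p P

/-- The X-ray of `E` in the unit direction `u`: the length of the intersection of `E` with the
line through `x` parallel to `u`. -/
def xray (u : Plane) (E : Set Plane) (x : Plane) : ℝ≥0∞ := volume {t : ℝ | x + t • u ∈ E}

/-- Q2: for each `m` there is a star-shaped polygon `P` such that for every set `S` of at most `m`
directions there is a star-shaped polygon `P' ≠ P` with the same X-rays in the directions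
of `S`. -/
theorem result (m : ℕ) : ∃ P : Set Plane, StarPolygon P ∧
    ∀ S : Finset Plane, S.card ≤ m → (∀ u ∈ S, ‖u‖ = 1) →
      ∃ P' : Set Plane, StarPolygon P' ∧ P' ≠ P ∧ ∀ u ∈ S, ∀ x, xray u P' x = xray u P x := by
  obtain ⟨P, hP, hP2⟩ := Pool.Agent.XR.exists_polygon m
  refine ⟨P, hP, ?_⟩
  intro S hS hu
  have h1 : ‖(EuclideanSpace.single 0 1 : Plane)‖ = 1 := by
    simp
  obtain ⟨P', hP', hne, hx⟩ := hP2
    (fun j => if h : j.1 < S.card then (S.equivFin.symm ⟨j.1, h⟩ : Plane)
      else EuclideanSpace.single 0 1) (by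
      intro j
      split_ifs with h
      · exact hu _ (S.equivFin.symm ⟨j.1, h⟩).2
      · exact h1)
  refine ⟨P', hP', hne, ?_⟩
  intro u huS x
  have h2 := (S.equivFin ⟨u, huS⟩).2
  have h3 := hx ⟨(S.equivFin ⟨u, huS⟩).1, h2.trans_le hS⟩ x
  dsimp only at h3
  rw [dif_pos h2] at h3
  have h4 : (S.equivFin.symm ⟨(S.equivFin ⟨u, huS⟩).1, h2⟩ : Plane) = u := by
    have : (⟨(S.equivFin ⟨u, huS⟩).1, h2⟩ : Fin S.card) = S.equivFin ⟨u, huS⟩ := rfl
    rw [this, Equiv.symm_apply_apply]
  rw [h4] at h3
  exact h3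

end Pool.Agent.Results.MP_7519fe_gt.NotVerifiable
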